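import Pool.Agent.J4H91.Circ.Count

/-!
# An upper bound of order `n ^ (2 + o(1))` for the number of distinct circumradii

For every `n ≥ 3` there are `n` points in the plane in general position (no three collinear, no four
concyclic) whose circles through three points have at most `n ^ 2 * exp (40 * √(log n))` distinct
radii.  Hence `h n ≤ n ^ 2 * exp (40 * √(log n)) = n ^ (2 + o(1))`.

The points are a generic projection to the plane of the grid points `{0, …, m-1}^D` on a sphere: on a
sphere no three points are collinear, and the circumradius of three points only depends on their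
difference vectors, of which there are few.
-/

set_option autoImplicit false

namespace Pool.Agent.Results.MP_cd3201_co.NearQuadraticUpperBound

open Pool.Agent.J4H91.Circ

/-- `h n`: the least number of radii determined by `n` points in general position. -/
noncomputable def h (n : ℕ) : ℕ :=
  sInf {k : ℕ | ∃ P : Finset Plane, P.card = n ∧ GeneralPosition P ∧ (radii P).ncard = k}

theorem main (n : ℕ) (hn : 3 ≤ n) : ∃ P : Finset Plane, P.card = n ∧ GeneralPosition P ∧
    (radii P).Finite ∧ ((radii P).ncard : ℝ) ≤ (n : ℝ) ^ 2 * Real.exp (40 * √(Real.log n)) := by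
  classical
  have hn3 : (3 : ℝ) ≤ n := by exact_mod_cast hn
  have hn0 : (0 : ℝ) < n := by linarith
  set L := Real.log n with hL
  have hL1 : 1 ≤ L := by
    rw [hL, Real.le_log_iff_exp_le hn0]
    have := Real.exp_one_lt_d9
    linarith
  set s := √L with hs
  have hs1 : 1 ≤ s := by
    rw [hs, Real.one_le_sqrt]
    exact hL1
  have hss : s * s = L := Real.mul_self_sqrt (by linarith)
  set k := ⌈s⌉₊ with hk
  have hks : s ≤ k := Nat.le_ceil s
  have hks' : (k : ℝ) < s + 1 := Nat.ceil_lt_add_one (by linarith)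
  have hk1 : 1 ≤ k := by
    have : (1 : ℝ) ≤ k := by linarith
    exact_mod_cast this
  set D := k + 2 with hD
  have hex : ∃ m : ℕ, D * n ≤ m ^ k := ⟨D * n, Nat.le_self_pow (by omega) _⟩
  set m := Nat.find hex with hm
  have hm1 : D * n ≤ m ^ k := Nat.find_spec hex
  have hm2 : 2 ≤ m := by
    by_contra hcon
    have h1 : m ≤ 1 := by omega
    have h2 : m ^ k ≤ 1 := by
      calc m ^ k ≤ 1 ^ k := Nat.pow_le_pow_left h1 k
        _ = 1 := one_pow k
    have h3 : 3 * 3 ≤ D * n := Nat.mul_le_mul (by omega) hn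
    omega
  have hm3 : (m - 1) ^ k < D * n := by
    by_contra hcon
    exact Nat.find_min hex (by omega : m - 1 < m) (not_lt.mp hcon)
  obtain ⟨P, h1, h2, h3, h4⟩ := construction D m n (by omega) (by omega) hn (by
    calc D * m ^ 2 * n = D * n * m ^ 2 := by ring
      _ ≤ m ^ k * m ^ 2 := Nat.mul_le_mul_right _ hm1
      _ = m ^ D := by rw [hD, pow_add])
  refine ⟨P, h1, h2, h3, ?_⟩
  have h5 : ((radii P).ncard : ℝ) ≤ (2 * (m : ℝ)) ^ (2 * D) := by exact_mod_cast h4
  refine h5.trans ?_
  have hmpos : (0 : ℝ) < m := by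
    have : (2 : ℝ) ≤ m := by exact_mod_cast hm2
    linarith
  have hDpos : (0 : ℝ) < D := by
    have : (2 : ℝ) ≤ D := by exact_mod_cast (by omega : 2 ≤ D)
    linarith
  -- the upper bound for `m`
  have hpow : (m : ℝ) ^ k ≤ 2 ^ k * (D * n) := by
    have e1 : m ^ k ≤ (2 * (m - 1)) ^ k := Nat.pow_le_pow_left (by omega) k
    have e2 : m ^ k ≤ 2 ^ k * (D * n) := by
      calc m ^ k ≤ (2 * (m - 1)) ^ k := e1
        _ = 2 ^ k * (m - 1) ^ k := mul_pow _ _ _
        _ ≤ 2 ^ k * (D * n) := Nat.mul_le_mul_left _ hm3.le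
    exact_mod_cast e2
  set μ := Real.log m with hμ
  have hkμ : k * μ ≤ k * Real.log 2 + Real.log D + L := by
    have e1 := Real.log_le_log (by positivity) hpow
    rw [Real.log_pow, Real.log_mul (by positivity) (by positivity), Real.log_pow,
      Real.log_mul (by positivity) (by positivity)] at e1
    linarith
  have hlog2 : Real.log 2 < 0.7 := by
    have := Real.log_two_lt_d9
    linarith
  have hlog2' : 0 < Real.log 2 := Real.log_pos (by norm_num)
  have hkD : (D : ℝ) = k + 2 := by
    rw [hD]
    push_cast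
    ring
  have hlogD : Real.log D ≤ D := (Real.log_le_self hDpos.le)
  have hlogD0 : 0 ≤ Real.log D := Real.log_nonneg (by rw [hkD]; linarith)
  have hk0 : (1 : ℝ) ≤ k := by exact_mod_cast hk1
  -- the bound for `μ`
  have hμ1 : μ ≤ Real.log 2 + Real.log D + s := by
    have e1 : k * μ ≤ k * (Real.log 2 + Real.log D + s) := by
      have e2 : L ≤ k * s := by
        rw [← hss]
        exact mul_le_mul_of_nonneg_right hks (by linarith)
      have e3 : Real.log D ≤ k * Real.log D := by nlinarith
      calc k * μ ≤ k * Real.log 2 + Real.log D + L := hkμ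
        _ ≤ k * Real.log 2 + k * Real.log D + k * s := by linarith
        _ = k * (Real.log 2 + Real.log D + s) := by ring
    exact le_of_mul_le_mul_left e1 (by linarith)
  have key : (2 * D : ℝ) * Real.log (2 * m) ≤ 2 * L + 40 * s := by
    rw [Real.log_mul (by norm_num) hmpos.ne', ← hμ]
    have e1 : (2 * D : ℝ) * (Real.log 2 + μ) =
        2 * (k + 2) * Real.log 2 + 2 * (k * μ) + 4 * μ := by
      rw [hkD]
      ring
    rw [e1]
    have e2 : (k : ℝ) * Real.log 2 ≤ (s + 1) * 0.7 := by
      apply mul_le_mul hks'.le hlog2.le hlog2'.le (by linarith)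
    have e3 : Real.log D ≤ s + 3 := by linarith
    nlinarith
  have hexp : (2 * (m : ℝ)) ^ (2 * D) = Real.exp ((2 * D : ℝ) * Real.log (2 * m)) := by
    rw [mul_comm (2 * (D : ℝ)) _, Real.exp_mul, Real.exp_log (by positivity)]
    rw [← Real.rpow_natCast]
    push_cast
    rfl
  have hn2 : (n : ℝ) ^ 2 = Real.exp (2 * L) := by
    rw [hL, mul_comm, Real.exp_mul, Real.exp_log hn0]
    norm_num
  rw [hexp, hn2, ← Real.exp_add]
  exact Real.exp_le_exp.mpr key

/-- For `n ≥ 3` some `n` points in general position determine at most `n² exp (40 √(log n))`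
circumradii; in particular `h n ≤ n² exp (40 √(log n))`. -/
theorem result : ∀ n : ℕ, 3 ≤ n →
    (∃ P : Finset Plane, P.card = n ∧ GeneralPosition P ∧ (radii P).Finite ∧
      ((radii P).ncard : ℝ) ≤ (n : ℝ) ^ 2 * Real.exp (40 * √(Real.log n))) ∧
    (h n : ℝ) ≤ (n : ℝ) ^ 2 * Real.exp (40 * √(Real.log n)) := by
  intro n hn
  obtain ⟨P, h1, h2, h3, h4⟩ := main n hn
  refine ⟨⟨P, h1, h2, h3, h4⟩, ?_⟩
  have : h n ≤ (radii P).ncard := Nat.sInf_le ⟨P, h1, h2, rfl⟩
  have h5 : (h n : ℝ) ≤ ((radii P).ncard : ℝ) := by exact_mod_cast this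
  exact h5.trans h4

end Pool.Agent.Results.MP_cd3201_co.NearQuadraticUpperBound
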